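import Pool.Agent.Run7.h827.NE.Main

set_option autoImplicit false

/-! # Poles of the local topological zeta function and roots of the local Bernstein-Sato polynomial:
# forms over products of northeast ideals of maximal minors

Let `x = (x_{i,j})`, `0 ≤ i < m`, `0 ≤ j < n`, be the generic `m × n` matrix. For `q = (i, j)` with
`i + j < n` (`Cell m n`) let `I_q` be the ideal of the maximal minors of the northeast matrix which
consists of the first `i + 1` rows and of the last `n - j` columns of `x`: the northeast ideals of
maximal minors of Bruns and Conca, which are the Borel fixed ideals of maximal minors (`neGen m n
q`). It vanishes where the rank of this matrix is at most `i`, a subset of codimension `n - i - j`.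

For `t ∈ T` let `e t q` be exponents, and let the `M_{t,J}` (`neProd m n (e t) J`) be the products
of such minors, `e t q` of them from the matrix of `q`, for each `q`. They generate the product `∏
q, I_q ^ e t q`. Let

  `F_t = ∑_J y_{t,J} M_{t,J}(x)`,

where the `y_{t,J}` are further variables, separate for each `t` (`blockForm`), so `F_t` is the
general form over this product. Let `f = ∏ t, F_t ^ a t` (`powProd`), a germ at the origin. We
assume that the set of the cells whose ideals occur in `f` is closed downwards (`Down`): if `I_q`
occurs and `p ≤ q` in both coordinates then `I_p` occurs. For instance, if `m ≤ n`, all the ideals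
`I_{(i, 0)}`, `i < r`, of the maximal minors of the first `i + 1` rows may occur, or all the `I_{(i,
j)}` with `i < r`, `j < c`; there is no other condition on the exponents.

The resolution. Let `D` be the set of the cells which occur, and let `E_p`, `p = (i, j) ∈ D`, be
obtained in the order of the rows `i`, and in each row in the order of the `j`, as follows. Suppose
that the `E_p` of the previous rows have been constructed, and that the `i`-vectors `x_0 ∧ … ∧ x_{i
- 1}`, restricted to the columns `≥ j`, are, up to a monomial in the equations of these divisors,
nowhere vanishing, and so define a subspace `Λ_j` of dimension `i` of `ℂ ^ (n - j)`. The condition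
that the row `x_i`, restricted to the columns `≥ j`, is in `Λ_j`, defines a smooth subvariety `Z_j`
of codimension `n - i - j`, which crosses the previous divisors transversely, since the entries of
the row `x_i` are free coordinates; and `Z_0 ⊆ Z_1 ⊆ …`, since the quotients of the `ℂ ^ (n - j)` by
the `Λ_j` are mapped onto each other. Blow up `Z_0` and the strict transforms of `Z_1, Z_2, …`, in
this order; they are again smooth and transverse. So one obtains a smooth variety `Y` on which the
`E_p`, `p ∈ D`, cross normally, the multiplicity of the Jacobian determinant along `E_p` is `ν_p -
1` with `ν_p = n - i - j`, and `I_q`, `q ∈ D`, becomes the ideal of the divisor `∑_{p ≤ q} E_p`. (If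
`ν_p = 1` then `E_p` is not exceptional but the strict transform of the zeros of a determinant.)
Locally `F_t` is one of the `M_{t,J}` times `y_{t,J} + ∑_{i ≠ J} g_i y_{t,i}`. Hence `Y` times the
space of the `y` is an embedded resolution of `f`, with the components `E_p`, of multiplicity `N_p =
∑ t, a t ∑_{q ≥ p} e t q`, and, for `a t > 0`, the strict transform of `F_t = 0`, with multiplicity
`a t` and `ν = 1` (`mulN`, `nuN`; in these definitions all the cells are listed, those not in `D`
have the multiplicity `0` and do not matter).

The proof. A functional equation of the product of powers of the `F_t` gives one of the product of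
powers of the ideals `∏ q, I_q ^ e t q`, with the same `b` (`locEq_of_powProd`). A residue
computation at a general point of `E_p` gives the roots, since `E_p` is a Rees divisor of the
product of powers of the ideals of the `F_t` (`rees_prod`). The chart (`xi`), for `p = (i, j)`: the
entries of the row `x_i` in the last `i` columns, in the columns `< j`, and the entries of all the
other rows are coordinates `X + c` with constants `c`, which are `λ` at the places of a partial
permutation matrix and `0` elsewhere; the other entries of the row `x_i` are `∑_k q_k x_k + z w`,
where the `q_k` are determined by the last `i` columns, and `w = 1` in one column and a coordinate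
in the other ones (`wS`). The quotients of the minors of the matrix of `p` by one of them are these
coordinates (`NM_Jc`), so `E_p` is a Rees divisor as soon as `I_p` occurs. The roots `-(1 + l) / a
t` come from the strict transforms (`strict_root`). For the local functional equations the base
point has to lie over a point of the affine space at which a given polynomial `H` with `H(0) ≠ 0`
does not vanish: `λ` is a general number (`exists_mul`). -/

namespace Pool.Agent.Results.MP_6163c8_ag.NortheastMinors

open Pool.Agent.H628R4.TP Pool.Agent.TH192.DT Pool.Agent.Run7.h827.NE

/-- **Q1 holds for the germ of `f = ∏ t, F_t ^ a t` at the origin**, `F_t` the general form over the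
product `∏ q, I_q ^ e t q` of powers of northeast ideals of maximal minors of the generic `m × n`
matrix, if the set of the cells `q` whose ideals occur is closed downwards. Let `b` satisfy a
functional equation `b(s) f ^ s = P(s) f ^ (s + 1)`, where `P(s)` is a differential operator with
formal (in particular convergent) power series as coefficients, for instance, let `b` be the local
Bernstein-Sato polynomial of `f`. (1) The numbers `-(ν_p + l) / N_p`, `0 ≤ l < N_p`, for all the
cells `p = (i, j)`, where `ν_p = n - i - j` and `N_p = ∑ t, a t ∑_{q ≥ p} e t q`, and `-(1 + l) / a
t`, `0 ≤ l < a t`, are roots of `b`. (2) Every pole `s₀` of the local topological zeta function of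
`f`, computed on the resolution described above (with arbitrary integers `χ` in the place of the
Euler characteristics of the strata over the origin), is a root of `b`. -/
theorem result {T : Type} [Fintype T] [DecidableEq T] (m n : ℕ) (e : T → Cell m n → ℕ)
    (a : T → ℕ) (hd : Down e a) (b : Polynomial ℂ)
    (hb : IsLocalBFunction (powProd a fun t => neProd m n (e t)) b) :
    (∀ (x : Cell m n ⊕ T) (l : ℕ), l < mulN m n e a x →
      b.eval (-((nuN m n T x : ℂ) + l) / mulN m n e a x) = 0) ∧
    ∀ (χ : Finset (Cell m n ⊕ T) → ℤ) (s₀ : ℂ),
      (topZ (nuN m n T) (mulN m n e a) χ).denom.eval s₀ = 0 → b.eval s₀ = 0 := by
  have h := ne_roots m n e a hd b (Or.inr hb)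
  exact ⟨h, fun χ s₀ hs => root_of_pole _ _ χ (nuN_pos m n) b h s₀ hs⟩

end Pool.Agent.Results.MP_6163c8_ag.NortheastMinors
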