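import Pool.Agent.Run7.h768.CS.Rel
import Pool.Agent.N101.CB.TopFin

set_option autoImplicit false

/-! # Poles of local topological zeta functions and Bernstein-Sato roots: quadratic plus cubes suffices

Every polynomial `f ∈ ℂ[x_1, ..., x_n]` with `f(0) = 0` is stably equivalent at the origin to a polynomial
`F` of the form `q + ∑_{i ∈ T} z_i ^ 3`, where `q` is a polynomial of degree at most two and `T` is a set of
variables: for some `κ` there is a polynomial automorphism in `n + 2 κ` variables which fixes the origin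
and maps `f(x) + t_1 w_1 + ... + t_κ w_κ` to `F` (`StabEq`, `QC`). The conjecture for `F` implies the one for
`f`. So the conjecture holds for all polynomials (germs of polynomials at the origin) if it holds for the
polynomials `q + ∑_{i ∈ T} z_i ^ 3`, `deg q ≤ 2`. (The starting result `CubicPolynomials` has the reduction to
cubic polynomials `q_0(x) + ∑_k t_k q_k(x)` with arbitrary quadratic polynomials `q_k`. For the Jacobian conjecture
the reductions to cubic and to cubic linear maps are theorems of Bass, Connell and Wright and of Druzkowski.)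

Construction. The step is `f ↦ f + (t + v(x, w)) (w - u(x))`, `u(0) = v(0) = 0`, which is the image of
`f + t w` under `w ↦ w - u(x)`, `t ↦ t + v(x, w)`. With `v = c (w + u)` it replaces a term `c u ^ 2` of `f` by
`c w ^ 2 + t w - t u`, and with `v = w ^ 2 + w u + u ^ 2` a term `u ^ 3` by `w ^ 3 + t w - t u`. By
`6 t u ^ 2 = (t + u) ^ 3 + (t - u) ^ 3 - 2 t ^ 3` the products `t u`, `u = ∑ c_j u_j ^ 2`, are treated in the same way. -/

namespace Pool.Agent.Results.MP_6163c8_ag.QuadraticPlusCubes

open MvPolynomial Pool.Agent.W428.MOT Pool.Agent.N101.CB Pool.Agent.Run7.h768.CS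
open Pool.Agent.H628R4.TP (IsLocalBFunction)

/-- `R` is a topological zeta function of `f` at the origin, for the ring homomorphism `χ : 𝓜 → ℂ` with
`χ(𝕃) = 1`, for instance the Euler characteristic: the motivic zeta function
`zt f {0} = ∑_N [X_N] 𝕃 ^ (-n N) T ^ N`, `X_N` the variety of the `N`-jets with origin `0` with `ord f = N`, is a
polynomial `Q` in the `F_(N, ν) = (𝕃 - 1) 𝕃 ^ (-ν) T ^ N / (1 - 𝕃 ^ (-ν) T ^ N)`, `N, ν ≥ 1`, with coefficients in
`𝓜`, and `R = (χ Q)(1 / (N s + ν))`. By the formula with an embedded resolution the usual topological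
zeta function has this property. -/
def IsTopZeta (χ : MK ℂ →+* ℂ) {n : ℕ} (f : MvPolynomial (Fin n) ℂ) (R : RatFunc ℂ) : Prop :=
  IsTop χ (zt f {0}) R

/-- The conjecture for `f`: every pole of a local topological zeta function of `f` is a root of every polynomial
`b` with a local functional equation `b(s) f ^ s = P(s) f ^ (s + 1)`, in particular of the local Bernstein-Sato
polynomial. -/
def Conj (χ : MK ℂ →+* ℂ) {n : ℕ} (f : MvPolynomial (Fin n) ℂ) : Prop :=
  ∀ R : RatFunc ℂ, IsTopZeta χ f R → ∀ s : ℂ, ¬ Reg R s →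
    ∀ b : Polynomial ℂ, IsLocalBFunction f b → b.eval s = 0

/-- **Quadratic polynomials plus cubes of variables suffice.** Let `χ : 𝓜 → ℂ` be a ring homomorphism with
`χ(𝕃) = 1`.

First part: for every non-constant `f` with `f(0) = 0` in `n` variables there are `κ` and a non-constant `F`
with `F(0) = 0` in `m = n + 2 κ` variables, `F = q + ∑_{i ∈ T} z_i ^ 3` with `deg q ≤ 2` (`QC F`), such that
(1) `F` is the image of `f(x) + t_1 w_1 + ... + t_κ w_κ` under an automorphism of the polynomial ring which fixes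
the origin (`StabEq f F κ`);
(2) for every topological zeta function `R` of `f` there is a topological zeta function `R'` of `F` with
`(s + κ) ((s + 1) R'(s) - 1) = s ((s + κ + 1) R(s + κ) - 1)`, and if `s ≠ -1` is a pole of `R` then
`s - κ` is a pole of `R'`;
(3) a local functional equation of `f` with `(s + 1) c(s)` gives one of `F` with `(s + 1) c(s + κ)`;
(4) the conjecture for `F` implies the conjecture for `f`.

Second part: the conjecture holds for all non-constant polynomials with `f(0) = 0`, in any number of variables, if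
and only if it holds for those of the form `q + ∑_{i ∈ T} z_i ^ 3`, `deg q ≤ 2`. -/
theorem result (χ : MK ℂ →+* ℂ) (hχ : χ ((Lu ℂ : (MK ℂ)ˣ) : MK ℂ) = 1) :
    (∀ {n : ℕ} (f : MvPolynomial (Fin n) ℂ), f.totalDegree ≠ 0 → constantCoeff f = 0 →
      ∃ (κ m : ℕ) (F : MvPolynomial (Fin m) ℂ), m = n + 2 * κ ∧ QC F ∧ F.totalDegree ≠ 0 ∧
        constantCoeff F = 0 ∧ StabEq f F κ ∧
        (∀ R : RatFunc ℂ, IsTopZeta χ f R → ∃ R' : RatFunc ℂ, IsTopZeta χ F R' ∧
          (RatFunc.X + (κ : RatFunc ℂ)) * ((RatFunc.X + 1) * R' - 1) =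
            RatFunc.X * ((RatFunc.X + (κ : RatFunc ℂ) + 1) * shR (κ : ℂ) R - 1) ∧
          ∀ s : ℂ, s ≠ -1 → ¬ Reg R s → ¬ Reg R' (s - κ)) ∧
        (∀ c : Polynomial ℂ, IsLocalBFunction f ((Polynomial.X + 1) * c) →
          IsLocalBFunction F ((Polynomial.X + 1) * c.comp (Polynomial.X + Polynomial.C (κ : ℂ)))) ∧
        (Conj χ F → Conj χ f)) ∧
    ((∀ (n : ℕ) (f : MvPolynomial (Fin n) ℂ), f.totalDegree ≠ 0 → constantCoeff f = 0 →
        Conj χ f) ↔
      ∀ (n : ℕ) (f : MvPolynomial (Fin n) ℂ), QC f → f.totalDegree ≠ 0 → constantCoeff f = 0 →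
        Conj χ f) := by
  refine ⟨fun {n} f hf hf0 => ?_, fun h n f _ => h n f, fun h n f hf hf0 => ?_⟩
  · obtain ⟨κ, m, F, hm, hF, hs, hl, -⟩ := exists_qc f
    exact ⟨κ, m, F, hm, hF, hl.deg hf, hl.const hf0, hs, hl.ltop hf0 χ hχ,
      fun c hc => (hl.lb hf hf0 _ hc).2 c rfl, lts_of hχ hf hf0 hl⟩
  · obtain ⟨κ, m, F, -, hF, -, hl, -⟩ := exists_qc f
    exact lts_of hχ hf hf0 hl (h m F hF (hl.deg hf) (hl.const hf0))

end Pool.Agent.Results.MP_6163c8_ag.QuadraticPlusCubes
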